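import Pool.Agent.Lib_helper60.AVM.Defs

/-!
# Project AVM (MP_05dcdc_nt), block NU1: symmetric matrices over `𝔽₂` with a kernel of given order
-/

set_option autoImplicit false
set_option linter.unusedSectionVars false

namespace Pool.Agent.AVM

open Finset

/-! ### the extended matrix -/

/-- `(c, vᵀ; v, M)` -/
def nu1_ext {k : ℕ} (M : Matrix (Fin k) (Fin k) (ZMod 2)) (v : Fin k → ZMod 2) (c : ZMod 2) :
    Matrix (Fin (k + 1)) (Fin (k + 1)) (ZMod 2) :=
  fun i j => Fin.cases (Fin.cases c v j : ZMod 2)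
    (fun i' => (Fin.cases (v i') (fun j' => M i' j') j : ZMod 2)) i

theorem nu1_sym {k : ℕ} (M : Matrix (Fin k) (Fin k) (ZMod 2)) (v : Fin k → ZMod 2) (c : ZMod 2) :
    (nu1_ext M v c).transpose = nu1_ext M v c ↔ M.transpose = M := by
  constructor
  · intro h
    ext i j
    have := congrFun (congrFun h i.succ) j.succ
    simpa [nu1_ext, Matrix.transpose_apply] using this
  · intro h
    ext i j
    refine Fin.cases ?_ (fun i' => ?_) i
    · refine Fin.cases ?_ (fun j' => ?_) j
      · simp [nu1_ext, Matrix.transpose_apply]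
      · simp [nu1_ext, Matrix.transpose_apply]
    · refine Fin.cases ?_ (fun j' => ?_) j
      · simp [nu1_ext, Matrix.transpose_apply]
      · have := congrFun (congrFun h i') j'
        simpa [nu1_ext, Matrix.transpose_apply] using this

theorem nu1_mulVec {k : ℕ} (M : Matrix (Fin k) (Fin k) (ZMod 2)) (v : Fin k → ZMod 2) (c t : ZMod 2)
    (x : Fin k → ZMod 2) :
    (nu1_ext M v c).mulVec (Fin.cons t x : Fin (k + 1) → ZMod 2) = 0 ↔
      c * t + v ⬝ᵥ x = 0 ∧ t • v + M.mulVec x = 0 := by
  have h0 : (nu1_ext M v c).mulVec (Fin.cons t x : Fin (k + 1) → ZMod 2) 0 = c * t + v ⬝ᵥ x := by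
    simp [Matrix.mulVec, dotProduct, Fin.sum_univ_succ, nu1_ext]
  have h1 : ∀ i : Fin k, (nu1_ext M v c).mulVec (Fin.cons t x : Fin (k + 1) → ZMod 2) i.succ =
      (t • v + M.mulVec x) i := by
    intro i
    simp [Matrix.mulVec, dotProduct, Fin.sum_univ_succ, nu1_ext, mul_comm]
  constructor
  · intro h
    refine ⟨by rw [← h0, h]; rfl, ?_⟩
    ext i
    rw [← h1, h]
    rfl
  · rintro ⟨h2, h3⟩
    ext i
    refine Fin.cases ?_ (fun i' => ?_) i
    · rw [h0, h2]; rfl
    · rw [h1, h3]; rfl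

/-- the kernel as pairs -/
theorem nu1_kc_ext {k : ℕ} (M : Matrix (Fin k) (Fin k) (ZMod 2)) (v : Fin k → ZMod 2) (c : ZMod 2) :
    kc (nu1_ext M v c) = (univ.filter (fun z : ZMod 2 × (Fin k → ZMod 2) =>
      c * z.1 + v ⬝ᵥ z.2 = 0 ∧ z.1 • v + M.mulVec z.2 = 0)).card := by
  refine (Finset.card_nbij' (fun z : ZMod 2 × (Fin k → ZMod 2) => (Fin.cons z.1 z.2 : Fin (k + 1) → ZMod 2))
    (fun y => (y 0, fun i => y i.succ)) ?_ ?_ ?_ ?_).symm
  · intro z hz
    simp only [coe_filter, mem_univ, true_and, Set.mem_ofPred_eq] at hz ⊢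
    exact (nu1_mulVec M v c z.1 z.2).2 hz
  · intro y hy
    simp only [coe_filter, mem_univ, true_and, Set.mem_ofPred_eq] at hy ⊢
    refine (nu1_mulVec M v c (y 0) (fun i => y i.succ)).1 ?_
    have : (Fin.cons (y 0) (fun i : Fin k => y i.succ) : Fin (k + 1) → ZMod 2) = y := Fin.cons_self_tail y
    rw [this]
    exact hy
  · intro z _
    simp
  · intro y _
    exact Fin.cons_self_tail y

theorem nu1_z2 (a : ZMod 2) : a = 0 ∨ a = 1 := by
  revert a; decide

theorem nu1_self (a : ZMod 2) : a + a = 0 := by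
  revert a; decide

theorem nu1_dot_sym {k : ℕ} {M : Matrix (Fin k) (Fin k) (ZMod 2)} (hM : M.transpose = M)
    (x y : Fin k → ZMod 2) : M.mulVec x ⬝ᵥ y = x ⬝ᵥ M.mulVec y := by
  rw [Matrix.dotProduct_mulVec, ← Matrix.mulVec_transpose, hM]

/-- `v ∈ im M` -/
theorem nu1_in {k : ℕ} {M : Matrix (Fin k) (Fin k) (ZMod 2)} (hM : M.transpose = M)
    (w : Fin k → ZMod 2) (c : ZMod 2) :
    kc (nu1_ext M (M.mulVec w) c) = if c = w ⬝ᵥ M.mulVec w then 2 * kc M else kc M := by
  rw [nu1_kc_ext]
  -- z = (t, x) ↦ (t, x + t w)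
  have h1 : (univ.filter (fun z : ZMod 2 × (Fin k → ZMod 2) =>
      c * z.1 + M.mulVec w ⬝ᵥ z.2 = 0 ∧ z.1 • M.mulVec w + M.mulVec z.2 = 0)).card =
      (univ.filter (fun z : ZMod 2 × (Fin k → ZMod 2) =>
        z.1 * (c + w ⬝ᵥ M.mulVec w) = 0 ∧ M.mulVec z.2 = 0)).card := by
    have key : ∀ z : ZMod 2 × (Fin k → ZMod 2),
        (c * z.1 + M.mulVec w ⬝ᵥ z.2 = 0 ∧ z.1 • M.mulVec w + M.mulVec z.2 = 0) ↔
        (z.1 * (c + w ⬝ᵥ M.mulVec w) = 0 ∧ M.mulVec (z.2 + z.1 • w) = 0) := by
      intro z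
      have e1 : M.mulVec (z.2 + z.1 • w) = z.1 • M.mulVec w + M.mulVec z.2 := by
        rw [Matrix.mulVec_add, Matrix.mulVec_smul, add_comm]
      rw [e1]
      constructor
      · rintro ⟨ha, hb⟩
        refine ⟨?_, hb⟩
        have hc : M.mulVec z.2 = z.1 • M.mulVec w := by
          have : M.mulVec z.2 = M.mulVec z.2 + (z.1 • M.mulVec w + M.mulVec z.2) := by rw [hb, add_zero]
          rw [this]
          ext i
          simp only [Pi.add_apply, Pi.smul_apply, smul_eq_mul]
          have := nu1_self (M.mulVec z.2 i)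
          linear_combination this
        rw [nu1_dot_sym hM, hc, dotProduct_smul, smul_eq_mul] at ha
        linear_combination ha
      · rintro ⟨ha, hb⟩
        refine ⟨?_, hb⟩
        have hc : M.mulVec z.2 = z.1 • M.mulVec w := by
          have : M.mulVec z.2 = M.mulVec z.2 + (z.1 • M.mulVec w + M.mulVec z.2) := by rw [hb, add_zero]
          rw [this]
          ext i
          simp only [Pi.add_apply, Pi.smul_apply, smul_eq_mul]
          have := nu1_self (M.mulVec z.2 i)
          linear_combination this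
        rw [nu1_dot_sym hM, hc, dotProduct_smul, smul_eq_mul]
        linear_combination ha
    have w2 : ∀ (t : ZMod 2) (x : Fin k → ZMod 2), x + t • w + t • w = x := by
      intro t x
      ext i
      simp only [Pi.add_apply, Pi.smul_apply, smul_eq_mul]
      have := nu1_self (t * w i)
      linear_combination this
    refine Finset.card_nbij' (fun z => (z.1, z.2 + z.1 • w)) (fun z => (z.1, z.2 + z.1 • w)) ?_ ?_ ?_ ?_
    · intro z hz
      simp only [coe_filter, mem_univ, true_and, Set.mem_ofPred_eq] at hz ⊢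
      exact (key z).1 hz
    · intro z hz
      simp only [coe_filter, mem_univ, true_and, Set.mem_ofPred_eq] at hz ⊢
      refine (key (z.1, z.2 + z.1 • w)).2 ?_
      dsimp only
      rw [w2]
      exact hz
    · intro z _
      simp [w2]
    · intro z _
      simp [w2]
  rw [h1]
  by_cases hc : c = w ⬝ᵥ M.mulVec w
  · rw [if_pos hc]
    have h0 : c + w ⬝ᵥ M.mulVec w = 0 := by rw [← hc]; exact nu1_self c
    have : (univ.filter (fun z : ZMod 2 × (Fin k → ZMod 2) =>
        z.1 * (c + w ⬝ᵥ M.mulVec w) = 0 ∧ M.mulVec z.2 = 0)) =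
        (univ : Finset (ZMod 2)) ×ˢ (univ.filter (fun x : Fin k → ZMod 2 => M.mulVec x = 0)) := by
      ext z
      simp [h0]
    rw [this, card_product]
    rfl
  · rw [if_neg hc]
    have h0 : c + w ⬝ᵥ M.mulVec w = 1 := by
      rcases nu1_z2 (c + w ⬝ᵥ M.mulVec w) with h | h
      · exfalso
        apply hc
        have := nu1_self (w ⬝ᵥ M.mulVec w)
        linear_combination h - this
      · exact h
    have : (univ.filter (fun z : ZMod 2 × (Fin k → ZMod 2) =>
        z.1 * (c + w ⬝ᵥ M.mulVec w) = 0 ∧ M.mulVec z.2 = 0)) =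
        ({0} : Finset (ZMod 2)) ×ˢ (univ.filter (fun x : Fin k → ZMod 2 => M.mulVec x = 0)) := by
      ext ⟨t, x⟩
      rw [mem_product, mem_singleton, mem_filter, mem_filter, h0, mul_one]
      simp
    rw [this, card_product, card_singleton, one_mul]
    rfl

/-- functionals on the kernel -/
theorem nu1_perp {k : ℕ} {M : Matrix (Fin k) (Fin k) (ZMod 2)} (hM : M.transpose = M)
    (v : Fin k → ZMod 2) (hv : ∀ x, M.mulVec x = 0 → v ⬝ᵥ x = 0) : ∃ w, M.mulVec w = v := by
  set f : (Fin k → ZMod 2) →ₗ[ZMod 2] (Fin k → ZMod 2) := M.mulVecLin with hf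
  set L : Module.Dual (ZMod 2) (Fin k → ZMod 2) := dotProductBilin (ZMod 2) (ZMod 2) v with hL
  have h1 : L ∈ (LinearMap.ker f).dualAnnihilator := by
    rw [Submodule.mem_dualAnnihilator]
    intro x hx
    exact hv x hx
  rw [← LinearMap.range_dualMap_eq_dualAnnihilator_ker] at h1
  obtain ⟨ψ, hψ⟩ := h1
  refine ⟨fun i => ψ (Pi.single i 1), ?_⟩
  have h2 : ∀ z : Fin k → ZMod 2, ψ z = (fun i => ψ (Pi.single i 1)) ⬝ᵥ z := by
    intro z
    conv_lhs => rw [← Finset.univ_sum_single z]
    rw [map_sum]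
    unfold dotProduct
    refine Finset.sum_congr rfl fun i _ => ?_
    have : (Pi.single i (z i) : Fin k → ZMod 2) = z i • Pi.single i 1 := by
      rw [← Pi.single_smul]; simp
    rw [this, map_smul, smul_eq_mul, mul_comm]
  have h3 : ∀ x : Fin k → ZMod 2, v ⬝ᵥ x = (fun i => ψ (Pi.single i 1)) ⬝ᵥ M.mulVec x := by
    intro x
    rw [← h2]
    have := LinearMap.congr_fun hψ x
    exact this.symm
  ext i
  have h4 := h3 (Pi.single i 1)
  rw [← nu1_dot_sym hM] at h4
  simpa using h4.symm

/-- `v ∉ im M` -/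
theorem nu1_out {k : ℕ} {M : Matrix (Fin k) (Fin k) (ZMod 2)} (hM : M.transpose = M)
    (v : Fin k → ZMod 2) (hv : ¬ ∃ w, M.mulVec w = v) (c : ZMod 2) :
    2 * kc (nu1_ext M v c) = kc M := by
  have h0 : ∃ y, M.mulVec y = 0 ∧ v ⬝ᵥ y = 1 := by
    by_contra hcon
    push Not at hcon
    refine hv (nu1_perp hM v fun x hx => ?_)
    rcases nu1_z2 (v ⬝ᵥ x) with h | h
    · exact h
    · exact absurd h (hcon x hx)
  obtain ⟨y, hy, hvy⟩ := h0
  have h1 : kc (nu1_ext M v c) =
      (univ.filter (fun x : Fin k → ZMod 2 => M.mulVec x = 0 ∧ v ⬝ᵥ x = 0)).card := by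
    rw [nu1_kc_ext]
    refine Finset.card_nbij' (fun z => z.2) (fun x => (0, x)) ?_ ?_ ?_ ?_
    · intro z hz
      simp only [coe_filter, mem_univ, true_and, Set.mem_ofPred_eq] at hz ⊢
      obtain ⟨ha, hb⟩ := hz
      rcases nu1_z2 z.1 with h | h
      · rw [h] at ha hb
        rw [zero_smul, zero_add] at hb
        rw [mul_zero, zero_add] at ha
        exact ⟨hb, ha⟩
      · exfalso
        rw [h, one_smul] at hb
        refine hv ⟨z.2, ?_⟩
        ext i
        have h2 := congrFun hb i
        simp only [Pi.add_apply, Pi.zero_apply] at h2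
        have h3 := nu1_self (v i)
        linear_combination h2 - h3
    · intro x hx
      simp only [coe_filter, mem_univ, true_and, Set.mem_ofPred_eq] at hx ⊢
      simp [hx.1, hx.2]
    · intro z hz
      simp only [coe_filter, mem_univ, true_and, Set.mem_ofPred_eq] at hz
      obtain ⟨ha, hb⟩ := hz
      rcases nu1_z2 z.1 with h | h
      · ext1
        · exact h.symm
        · rfl
      · exfalso
        rw [h, one_smul] at hb
        refine hv ⟨z.2, ?_⟩
        ext i
        have h2 := congrFun hb i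
        simp only [Pi.add_apply, Pi.zero_apply] at h2
        have h3 := nu1_self (v i)
        linear_combination h2 - h3
    · intro x _
      rfl
  have h2 : (univ.filter (fun x : Fin k → ZMod 2 => M.mulVec x = 0 ∧ v ⬝ᵥ x = 0)).card =
      (univ.filter (fun x : Fin k → ZMod 2 => M.mulVec x = 0 ∧ ¬ v ⬝ᵥ x = 0)).card := by
    have yy : ∀ x : Fin k → ZMod 2, x + y + y = x := by
      intro x
      ext i
      simp only [Pi.add_apply]
      have := nu1_self (y i)
      linear_combination this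
    refine Finset.card_nbij' (fun x => x + y) (fun x => x + y) ?_ ?_ ?_ ?_
    · intro x hx
      simp only [coe_filter, mem_univ, true_and, Set.mem_ofPred_eq] at hx ⊢
      rw [Matrix.mulVec_add, hx.1, hy, dotProduct_add, hx.2, hvy]
      simp
    · intro x hx
      simp only [coe_filter, mem_univ, true_and, Set.mem_ofPred_eq] at hx ⊢
      rw [Matrix.mulVec_add, hx.1, hy, dotProduct_add, hvy]
      refine ⟨by simp, ?_⟩
      rcases nu1_z2 (v ⬝ᵥ x) with h | h
      · exact absurd h hx.2
      · rw [h]; exact nu1_self 1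
    · intro x _
      exact yy x
    · intro x _
      exact yy x
  have h3 : kc M = (univ.filter (fun x : Fin k → ZMod 2 => M.mulVec x = 0 ∧ v ⬝ᵥ x = 0)).card +
      (univ.filter (fun x : Fin k → ZMod 2 => M.mulVec x = 0 ∧ ¬ v ⬝ᵥ x = 0)).card := by
    unfold kc
    rw [← Finset.filter_filter, ← Finset.filter_filter]
    exact (Finset.card_filter_add_card_filter_not _).symm
  rw [h1, h3, ← h2, two_mul]

/-! ### counting -/

theorem nu1_kc_card {k : ℕ} (M : Matrix (Fin k) (Fin k) (ZMod 2)) :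
    kc M = Nat.card (LinearMap.ker M.mulVecLin) := by
  have h : kc M = Nat.card {x : Fin k → ZMod 2 // M.mulVec x = 0} := by
    rw [Nat.card_eq_fintype_card, Fintype.card_subtype]
    rfl
  rw [h]
  exact Nat.card_congr (Equiv.subtypeEquivRight fun x => by
    rw [LinearMap.mem_ker, Matrix.mulVecLin_apply])

theorem nu1_kc_pow {k : ℕ} (M : Matrix (Fin k) (Fin k) (ZMod 2)) : ∃ r, kc M = 2 ^ r := by
  refine ⟨Module.finrank (ZMod 2) (LinearMap.ker M.mulVecLin), ?_⟩
  rw [nu1_kc_card, Module.natCard_eq_pow_finrank (K := ZMod 2), Nat.card_zmod]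

open Classical in
/-- the number of the vectors in the image -/
theorem nu1_im {k : ℕ} (M : Matrix (Fin k) (Fin k) (ZMod 2)) :
    kc M * (univ.filter (fun v : Fin k → ZMod 2 => ∃ w, M.mulVec w = v)).card = 2 ^ k := by
  have h1 : (univ.filter (fun v : Fin k → ZMod 2 => ∃ w, M.mulVec w = v)).card =
      Nat.card (LinearMap.range M.mulVecLin) := by
    have h : (univ.filter (fun v : Fin k → ZMod 2 => ∃ w, M.mulVec w = v)).card =
        Nat.card {v : Fin k → ZMod 2 // ∃ w, M.mulVec w = v} := by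
      rw [Nat.card_eq_fintype_card, Fintype.card_subtype]
    rw [h]
    exact Nat.card_congr (Equiv.subtypeEquivRight fun x => by
      rw [LinearMap.mem_range]
      rfl)
  rw [nu1_kc_card, h1, Module.natCard_eq_pow_finrank (K := ZMod 2) (V := LinearMap.ker M.mulVecLin),
    Module.natCard_eq_pow_finrank (K := ZMod 2) (V := LinearMap.range M.mulVecLin), Nat.card_zmod, ← pow_add,
    add_comm, LinearMap.finrank_range_add_finrank_ker, Module.finrank_fin_fun]

/-- for a fixed `v` -/
theorem nu1_fib {k : ℕ} {M : Matrix (Fin k) (Fin k) (ZMod 2)} (hM : M.transpose = M) {r : ℕ}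
    (hr : kc M = 2 ^ r) (b : ℕ) (v : Fin k → ZMod 2) [Decidable (∃ w, M.mulVec w = v)] :
    (univ.filter (fun c : ZMod 2 => kc (nu1_ext M v c) = 2 ^ b)).card =
      if ∃ w, M.mulVec w = v then (if b = r + 1 then 1 else 0) + (if b = r then 1 else 0)
      else (if b + 1 = r then 2 else 0) := by
  have inj : ∀ {i j : ℕ}, (2 : ℕ) ^ i = 2 ^ j ↔ i = j := fun {i j} =>
    ⟨fun h => Nat.pow_right_injective (le_refl 2) h, fun h => by rw [h]⟩
  by_cases hv : ∃ w, M.mulVec w = v
  · rw [if_pos hv]
    obtain ⟨w, rfl⟩ := hv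
    set q : ZMod 2 := w ⬝ᵥ M.mulVec w with hq
    have e : ∀ c : ZMod 2, kc (nu1_ext M (M.mulVec w) c) = 2 ^ b ↔
        (c = q ∧ b = r + 1) ∨ (c = q + 1 ∧ b = r) := by
      intro c
      rw [nu1_in hM, hr, ← hq]
      by_cases hc : c = q
      · rw [if_pos hc, ← pow_succ', inj, hc]
        constructor
        · intro h
          exact Or.inl ⟨rfl, h.symm⟩
        · rintro (h | h)
          · exact h.2.symm
          · exfalso
            have := h.1
            revert this
            rcases nu1_z2 q with h' | h' <;> rw [h'] <;> decide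
      · rw [if_neg hc, inj]
        constructor
        · intro h
          refine Or.inr ⟨?_, h.symm⟩
          rcases nu1_z2 q with h' | h' <;> rcases nu1_z2 c with h'' | h''
          · exact absurd (h''.trans h'.symm) hc
          · rw [h', h'']; rfl
          · rw [h', h'']; rfl
          · exact absurd (h''.trans h'.symm) hc
        · rintro (h | h)
          · exact absurd h.1 hc
          · exact h.2.symm
    rw [Finset.filter_congr fun c _ => e c]
    split_ifs with h1 h2 h2
    · omega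
    · have : (univ.filter (fun c : ZMod 2 => (c = q ∧ b = r + 1) ∨ (c = q + 1 ∧ b = r))) = {q} := by
        ext c; simp [h1]
      rw [this]; rfl
    · have : (univ.filter (fun c : ZMod 2 => (c = q ∧ b = r + 1) ∨ (c = q + 1 ∧ b = r))) = {q + 1} := by
        ext c; simp [h2]
      rw [this]; rfl
    · have : (univ.filter (fun c : ZMod 2 => (c = q ∧ b = r + 1) ∨ (c = q + 1 ∧ b = r))) = ∅ := by
        ext c; simp [h1, h2]
      rw [this]; rfl
  · rw [if_neg hv]
    have e : ∀ c : ZMod 2, kc (nu1_ext M v c) = 2 ^ b ↔ b + 1 = r := by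
      intro c
      have h := nu1_out hM v hv c
      rw [hr] at h
      constructor
      · intro h1
        rw [h1, ← pow_succ', inj] at h
        exact h
      · intro h1
        rw [← h1, pow_succ'] at h
        exact Nat.eq_of_mul_eq_mul_left (by norm_num) h
    rw [Finset.filter_congr fun c _ => e c]
    split_ifs with h1
    · have : (univ.filter (fun _ : ZMod 2 => b + 1 = r)) = univ := by
        ext c; simp [h1]
      rw [this]; rfl
    · have : (univ.filter (fun _ : ZMod 2 => b + 1 = r)) = ∅ := by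
        ext c; simp [h1]
      rw [this]; rfl

/-- for a fixed `M` -/
theorem nu1_fibM {k : ℕ} {M : Matrix (Fin k) (Fin k) (ZMod 2)} (hM : M.transpose = M) {r : ℕ}
    (hr : kc M = 2 ^ r) (b : ℕ) :
    ((univ.filter (fun z : (Fin k → ZMod 2) × ZMod 2 => kc (nu1_ext M z.1 z.2) = 2 ^ b)).card : ℝ) =
      2 ^ (k + 1) * ((if b = r + 1 then 1 / 2 ^ b else 0) + (if b = r then 1 / 2 ^ (b + 1) else 0) +
        (if b + 1 = r then (1 - 1 / 2 ^ (b + 1)) else 0)) := by
  classical
  have h1 : (univ.filter (fun z : (Fin k → ZMod 2) × ZMod 2 => kc (nu1_ext M z.1 z.2) = 2 ^ b)).card =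
      ∑ v : Fin k → ZMod 2, (univ.filter (fun c : ZMod 2 => kc (nu1_ext M v c) = 2 ^ b)).card := by
    rw [Finset.card_filter, Fintype.sum_prod_type]
    refine Finset.sum_congr rfl fun v _ => ?_
    rw [Finset.card_filter]
  have h2 : (univ.filter (fun z : (Fin k → ZMod 2) × ZMod 2 => kc (nu1_ext M z.1 z.2) = 2 ^ b)).card =
      (univ.filter (fun v : Fin k → ZMod 2 => ∃ w, M.mulVec w = v)).card *
        ((if b = r + 1 then 1 else 0) + (if b = r then 1 else 0)) +
      (univ.filter (fun v : Fin k → ZMod 2 => ¬ ∃ w, M.mulVec w = v)).card *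
        (if b + 1 = r then 2 else 0) := by
    rw [h1, Finset.sum_congr rfl fun v _ => nu1_fib hM hr b v, Finset.sum_ite, Finset.sum_const,
      Finset.sum_const, smul_eq_mul, smul_eq_mul]
  have h3 := nu1_im M
  have h4 : (univ.filter (fun v : Fin k → ZMod 2 => ∃ w, M.mulVec w = v)).card +
      (univ.filter (fun v : Fin k → ZMod 2 => ¬ ∃ w, M.mulVec w = v)).card = 2 ^ k := by
    rw [Finset.card_filter_add_card_filter_not, Finset.card_univ, Fintype.card_fun, ZMod.card,
      Fintype.card_fin]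
  rw [hr] at h3
  set I := (univ.filter (fun v : Fin k → ZMod 2 => ∃ w, M.mulVec w = v)).card
  set J := (univ.filter (fun v : Fin k → ZMod 2 => ¬ ∃ w, M.mulVec w = v)).card
  have h5 : (2 : ℝ) ^ r * I = 2 ^ k := by exact_mod_cast h3
  have h6 : (I : ℝ) + J = 2 ^ k := by exact_mod_cast h4
  have hI : (I : ℝ) = 2 ^ k / 2 ^ r := by
    rw [eq_div_iff (by positivity), mul_comm]; exact h5
  have hJ : (J : ℝ) = 2 ^ k - 2 ^ k / 2 ^ r := by rw [← hI]; linarith
  rw [h2]
  push_cast
  rw [hI, hJ]
  by_cases e1 : b = r + 1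
  · subst e1
    have n1 : ¬ (r + 1 = r) := by omega
    have n2 : ¬ (r + 1 + 1 = r) := by omega
    simp only [n1, n2, if_true, if_false]
    field_simp
    ring
  · by_cases e2 : b = r
    · subst e2
      have n1 : ¬ (b = b + 1) := by omega
      have n2 : ¬ (b + 1 = b) := by omega
      simp only [n1, n2, if_true, if_false]
      field_simp
      ring
    · by_cases e3 : b + 1 = r
      · subst e3
        have n1 : ¬ (b = b + 1 + 1) := by omega
        have n2 : ¬ (b = b + 1) := by omega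
        simp only [n1, n2, if_true, if_false]
        field_simp
        ring
      · simp only [e1, e2, e3, if_false]
        ring

/-- symmetric matrices of size `k + 1` -/
theorem nu1_bij (k : ℕ) (P : Matrix (Fin (k + 1)) (Fin (k + 1)) (ZMod 2) → Prop) [DecidablePred P] :
    (univ.filter (fun M : Matrix (Fin (k + 1)) (Fin (k + 1)) (ZMod 2) => M.transpose = M ∧ P M)).card =
    ∑ M ∈ univ.filter (fun M : Matrix (Fin k) (Fin k) (ZMod 2) => M.transpose = M),
      (univ.filter (fun z : (Fin k → ZMod 2) × ZMod 2 => P (nu1_ext M z.1 z.2))).card := by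
  have h1 : ∑ M ∈ univ.filter (fun M : Matrix (Fin k) (Fin k) (ZMod 2) => M.transpose = M),
      (univ.filter (fun z : (Fin k → ZMod 2) × ZMod 2 => P (nu1_ext M z.1 z.2))).card =
      ((univ.filter (fun M : Matrix (Fin k) (Fin k) (ZMod 2) => M.transpose = M)).sigma
        (fun M => univ.filter (fun z : (Fin k → ZMod 2) × ZMod 2 => P (nu1_ext M z.1 z.2)))).card := by
    rw [Finset.card_sigma]
  rw [h1]
  refine (Finset.card_nbij' (fun y => nu1_ext y.1 y.2.1 y.2.2)
    (fun M => ⟨fun i j => M i.succ j.succ, fun i => M i.succ 0, M 0 0⟩) ?_ ?_ ?_ ?_).symm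
  · rintro ⟨M, v, c⟩ h
    simp only [coe_sigma, Set.mem_sigma_iff, coe_filter, mem_univ, true_and, Set.mem_ofPred_eq] at h ⊢
    exact ⟨(nu1_sym M v c).2 h.1, h.2⟩
  · intro M h
    simp only [coe_sigma, Set.mem_sigma_iff, coe_filter, mem_univ, true_and, Set.mem_ofPred_eq] at h ⊢
    have e : nu1_ext (fun i j => M i.succ j.succ) (fun i => M i.succ 0) (M 0 0) = M := by
      ext i j
      refine Fin.cases ?_ (fun i' => ?_) i
      · refine Fin.cases ?_ (fun j' => ?_) j
        · rfl
        · have := congrFun (congrFun h.1 0) j'.succ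
          exact this
      · refine Fin.cases ?_ (fun j' => ?_) j
        · rfl
        · rfl
    rw [e]
    refine ⟨?_, h.2⟩
    ext i j
    exact congrFun (congrFun h.1 i.succ) j.succ
  · rintro ⟨M, v, c⟩ _
    rfl
  · intro M h
    simp only [coe_filter, mem_univ, true_and, Set.mem_ofPred_eq] at h
    dsimp only
    ext i j
    refine Fin.cases ?_ (fun i' => ?_) i
    · refine Fin.cases ?_ (fun j' => ?_) j
      · rfl
      · have := congrFun (congrFun h.1 0) j'.succ
        exact this
    · refine Fin.cases ?_ (fun j' => ?_) j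
      · rfl
      · rfl

theorem nu1_tri (k : ℕ) : (k + 1) * (k + 1 + 1) / 2 = k * (k + 1) / 2 + (k + 1) := by
  have h : (k + 1) * (k + 1 + 1) = k * (k + 1) + (k + 1) * 2 := by ring
  rw [h, Nat.add_mul_div_right _ _ (by norm_num)]

theorem ns_card (k : ℕ) : (univ.filter (fun M : Matrix (Fin k) (Fin k) (ZMod 2) => M.transpose = M)).card =
    2 ^ (k * (k + 1) / 2) := by
  induction k with
  | zero =>
    have : (univ.filter (fun M : Matrix (Fin 0) (Fin 0) (ZMod 2) => M.transpose = M)) = univ := by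
      ext M
      simp only [mem_filter, mem_univ, true_and, iff_true]
      exact Subsingleton.elim _ _
    rw [this, Finset.card_univ]
    exact Fintype.card_eq_one_iff.2 ⟨0, fun _ => Subsingleton.elim _ _⟩
  | succ k ih =>
    have h := nu1_bij k (fun _ => True)
    simp only [and_true, Finset.filter_true, Finset.card_univ, Finset.sum_const, smul_eq_mul] at h
    rw [h, ih, nu1_tri, pow_add]
    congr 1
    rw [Fintype.card_prod, Fintype.card_fun, ZMod.card, Fintype.card_fin, pow_succ]

theorem nu1_NS (k b : ℕ) : (NS (k + 1) b : ℝ) = 2 ^ (k + 1) * (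
    (if b = 0 then 0 else (NS k (b - 1) : ℝ) / 2 ^ b) + (NS k b : ℝ) / 2 ^ (b + 1) +
    (1 - 1 / 2 ^ (b + 1)) * NS k (b + 1)) := by
  classical
  have h := nu1_bij k (fun M => kc M = 2 ^ b)
  have h' : (NS (k + 1) b : ℝ) = ∑ M ∈ univ.filter (fun M : Matrix (Fin k) (Fin k) (ZMod 2) => M.transpose = M),
      ((univ.filter (fun z : (Fin k → ZMod 2) × ZMod 2 => kc (nu1_ext M z.1 z.2) = 2 ^ b)).card : ℝ) := by
    rw [← Nat.cast_sum, ← h]
    rfl
  have inj : ∀ {i j : ℕ}, (2 : ℕ) ^ i = 2 ^ j ↔ i = j := fun {i j} =>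
    ⟨fun h => Nat.pow_right_injective (le_refl 2) h, fun h => by rw [h]⟩
  have h2 : ∀ M ∈ univ.filter (fun M : Matrix (Fin k) (Fin k) (ZMod 2) => M.transpose = M),
      ((univ.filter (fun z : (Fin k → ZMod 2) × ZMod 2 => kc (nu1_ext M z.1 z.2) = 2 ^ b)).card : ℝ) =
      2 ^ (k + 1) * ((if b = 0 then 0 else if kc M = 2 ^ (b - 1) then 1 / 2 ^ b else 0) +
        (if kc M = 2 ^ b then 1 / 2 ^ (b + 1) else 0) +
        (if kc M = 2 ^ (b + 1) then (1 - 1 / 2 ^ (b + 1)) else 0)) := by
    intro M hM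
    rw [mem_filter] at hM
    obtain ⟨r, hr⟩ := nu1_kc_pow M
    rw [nu1_fibM hM.2 hr b, hr]
    simp only [inj]
    have e1 : (if b = r + 1 then (1 : ℝ) / 2 ^ b else 0) =
        (if b = 0 then 0 else if r = b - 1 then 1 / 2 ^ b else 0) := by
      by_cases hb : b = 0
      · rw [if_pos hb, if_neg (by omega)]
      · rw [if_neg hb]
        by_cases hb' : b = r + 1
        · rw [if_pos hb', if_pos (by omega)]
        · rw [if_neg hb', if_neg (by omega)]
    have e2 : (if b = r then (1 : ℝ) / 2 ^ (b + 1) else 0) = if r = b then 1 / 2 ^ (b + 1) else 0 := by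
      by_cases hb : b = r
      · rw [if_pos hb, if_pos hb.symm]
      · rw [if_neg hb, if_neg (Ne.symm hb)]
    have e3 : (if b + 1 = r then (1 : ℝ) - 1 / 2 ^ (b + 1) else 0) =
        if r = b + 1 then 1 - 1 / 2 ^ (b + 1) else 0 := by
      by_cases hb : b + 1 = r
      · rw [if_pos hb, if_pos hb.symm]
      · rw [if_neg hb, if_neg (Ne.symm hb)]
    rw [e1, e2, e3]
  have h3 : ∀ (r : ℕ) (x : ℝ), ∑ M ∈ univ.filter (fun M : Matrix (Fin k) (Fin k) (ZMod 2) => M.transpose = M),
      (if kc M = 2 ^ r then x else 0) = NS k r * x := by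
    intro r x
    rw [← Finset.sum_filter, Finset.sum_const, Finset.filter_filter, nsmul_eq_mul]
    rfl
  rw [h', Finset.sum_congr rfl h2, ← Finset.mul_sum, Finset.sum_add_distrib, Finset.sum_add_distrib, h3, h3]
  congr 1
  by_cases hb : b = 0
  · simp only [hb, if_true, Finset.sum_const_zero]
    ring
  · simp only [hb, if_false]
    rw [h3]
    ring

theorem ns_rec (k : ℕ) : PS (k + 1) 0 = (PS k 0 + PS k 1) / 2 ∧
    ∀ a : ℕ, PS (k + 1) (a + 1) =
      (1 - 1 / 2 ^ (a + 2)) * PS k (a + 2) + 1 / 2 ^ (a + 2) * PS k (a + 1) + 1 / 2 ^ (a + 1) * PS k a := by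
  constructor
  · unfold PS
    rw [nu1_NS, nu1_tri, pow_add (2 : ℝ) (k * (k + 1) / 2) (k + 1)]
    simp only [if_true, zero_add, pow_one]
    field_simp
    ring
  · intro a
    unfold PS
    rw [nu1_NS, nu1_tri, pow_add (2 : ℝ) (k * (k + 1) / 2) (k + 1)]
    rw [if_neg (Nat.succ_ne_zero a), Nat.add_sub_cancel]
    have e : a + 1 + 1 = a + 2 := rfl
    rw [e]
    field_simp
    ring

end Pool.Agent.AVM
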